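import Pool.Agent.P.MP_8220a0_an.Smooth
import Pool.Agent.P.MP_8220a0_an.Bound

/-!
Kane's bound does not give the order of magnitude of the number of nodes, not even up to a power,
for a smooth even unimodal weight that is positive on `(-π, π)`.
-/

namespace Pool.Agent.Results.MP_8220a0_an.SmoothNotSharp

open Real MeasureTheory

/-- Real trigonometric polynomials of degree at most `n`. -/
def IsTrig (n : ℕ) (p : ℝ → ℝ) : Prop :=
  ∃ a b : ℕ → ℝ, p = fun θ => ∑ j ∈ Finset.range (n + 1), (a j * cos (j * θ) + b j * sin (j * θ))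

/-- `2π`-periodic weight functions. -/
def IsWeight (W : ℝ → ℝ) : Prop :=
  (∀ θ, 0 ≤ W θ) ∧ Function.Periodic W (2 * π) ∧ Measurable W ∧
    IntervalIntegrable W volume (-π) π ∧ 0 < ∫ θ in (-π)..π, W θ

/-- There is a Chebyshev-type trigonometric quadrature of degree `n` with exactly `N` nodes. -/
def HasQuad (W : ℝ → ℝ) (n N : ℕ) : Prop :=
  ∃ (θ : Fin N → ℝ) (lam : ℝ), Monotone θ ∧
    ∀ p, IsTrig n p → ∫ x in (-π)..π, p x * W x = lam * ∑ i, p (θ i)

/-- The least `N₀` such that a quadrature with `N` nodes exists for every `N ≥ N₀`. -/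
noncomputable def Nbar (W : ℝ → ℝ) (n : ℕ) : ℕ := sInf {N₀ | ∀ N, N₀ ≤ N → HasQuad W n N}

/-- The quotients whose supremum appears in Kane's quantity. -/
def ratios (W : ℝ → ℝ) (n : ℕ) : Set ℝ :=
  {r | ∃ p, IsTrig n p ∧ (∀ x, 0 ≤ p x) ∧ p ≠ 0 ∧
    r = (∫ x in (-π)..π, |deriv p x|) / ∫ x in (-π)..π, p x * W x}

/-- Kane's quantity `K_W(n)`. -/
noncomputable def kane (W : ℝ → ℝ) (n : ℕ) : ℕ :=
  ⌊(∫ θ in (-π)..π, W θ) / 2 * sSup (ratios W n)⌋₊ + 1

open Pool.Agent.P.MP_8220a0_an Polynomial Finset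

lemma bdd {W : ℝ → ℝ} (hW : IsWeight W) (hae : ∀ᵐ θ, W θ ≠ 0) (n : ℕ) :
    BddAbove (ratios W n) := by
  obtain ⟨C, hC0, hC⟩ := exists_ratio_bound n hW.2.2.2.1 hW.1 hae
  refine ⟨C, ?_⟩
  rintro r ⟨p, ⟨a, b, hp⟩, h1, -, rfl⟩
  have e : p = tpL n (fun j => a j, fun j => b j) := by
    rw [hp, tpL_apply]
    ext θ
    exact (Fin.sum_univ_eq_sum_range
      (fun j => a j * cos (j * θ) + b j * sin (j * θ)) (n + 1)).symm
  refine div_le_of_le_mul₀ (intervalIntegral.integral_nonneg (by linarith [pi_pos])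
    fun θ _ => mul_nonneg (h1 θ) (hW.1 θ)) hC0 ?_
  rw [e] at h1 ⊢
  exact hC _ h1

lemma hasQuad_of {F : ℝ → ℝ} (hF : Continuous F) (hA : 0 < muF F hF 1) {n N : ℕ} (hN : 0 < N)
    (Θ : Multiset ℝ) (hc : Multiset.card Θ = N)
    (h1 : ∀ q : ℝ[X], q.natDegree ≤ n →
      (Θ.map fun θ => q.eval (cos θ)).sum = N / muF F hF 1 * muF F hF q)
    (h2 : ∀ t : ℝ, (Θ.map fun θ => sin (t * θ)).sum = 0) :
    HasQuad (fun θ => F (cos θ)) n N := by
  obtain ⟨θ₀, hθ₀⟩ : ∃ θ₀ : Fin N → ℝ, Θ = univ.val.map θ₀ := by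
    induction Θ using Quotient.inductionOn with
    | _ l =>
      have hl : l.length = N := hc
      subst hl
      exact ⟨l.get, by simp⟩
  have hs : ∀ f : ℝ → ℝ, ∑ i, f ((θ₀ ∘ Tuple.sort θ₀) i) = (Θ.map f).sum := fun f => by
    rw [hθ₀, Multiset.map_map]
    exact Equiv.sum_comp (Tuple.sort θ₀) fun i => f (θ₀ i)
  refine ⟨θ₀ ∘ Tuple.sort θ₀, muF F hF 1 / N, Tuple.monotone_sort θ₀, ?_⟩
  rintro p ⟨c, d, rfl⟩
  rw [hs fun θ => ∑ j ∈ range (n + 1), (c j * cos (j * θ) + d j * sin (j * θ)),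
    Multiset.sum_map_sum, mul_sum]
  simp only [sum_mul]
  rw [intervalIntegral.integral_finsetSum fun j _ =>
    Continuous.intervalIntegrable (by fun_prop) _ _]
  refine sum_congr rfl fun j hj => ?_
  rw [mem_range] at hj
  have e1 := h1 (Chebyshev.T ℝ (j : ℤ)) (by rw [Chebyshev.natDegree_T]; simp; omega)
  have e2 := muF_apply F hF (Chebyshev.T ℝ (j : ℤ))
  simp only [Chebyshev.T_real_cos, Int.cast_natCast] at e1 e2
  have e3 : ∫ θ in (-π)..π, sin (j * θ) * F (cos θ) = 0 := by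
    have h3 := intervalIntegral.integral_comp_neg (a := -π) (b := π)
      (fun θ => sin (j * θ) * F (cos θ))
    simp only [mul_neg, sin_neg, cos_neg, neg_neg, neg_mul, intervalIntegral.integral_neg] at h3
    linarith
  rw [Multiset.sum_map_add, Multiset.sum_map_mul_left, Multiset.sum_map_mul_left, e1, h2]
  simp only [add_mul, mul_assoc]
  rw [intervalIntegral.integral_add (Continuous.intervalIntegrable (by fun_prop) _ _)
    (Continuous.intervalIntegrable (by fun_prop) _ _), intervalIntegral.integral_const_mul,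
    intervalIntegral.integral_const_mul, ← e2, e3]
  have hNr : (0 : ℝ) < N := by exact_mod_cast hN
  field_simp
  ring

lemma kane_lower {F : ℝ → ℝ} {ρ : ℝ} {n : ℕ} {a τ B : ℝ} (h : Level F ρ n a τ B)
    (hF : Continuous F) (hW : IsWeight fun θ => F (cos θ)) (hae : ∀ᵐ θ, F (cos θ) ≠ 0) :
    1 < 4 * ρ ^ n * kane (fun θ => F (cos θ)) n := by
  have hn := h.one_le
  set p : ℝ → ℝ := fun θ => (tq n).eval (cos θ) with hp
  have hp0 : ∀ θ, 0 ≤ p θ := fun θ => by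
    simp only [hp, tq_eval]
    exact pow_nonneg (by linarith [cos_le_one θ]) n
  have hpπ : p π = 1 := by simp [hp, tq_eval]
  have hpz : p 0 = 0 := by simp [hp, tq_eval, show n ≠ 0 by omega]
  have hne : p ≠ 0 := fun e => by
    rw [e] at hpπ
    simp at hpπ
  have htrig : IsTrig n p := by
    obtain ⟨c, hc⟩ := exists_cheb n (tq n) (tq_natDegree n)
    refine ⟨c, fun _ => 0, ?_⟩
    ext θ
    simp only [hp]
    rw [hc]
    simp [eval_finsetSum, Chebyshev.T_real_cos]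
  have hcd : ContDiff ℝ 1 p := by
    have : p = fun θ => ((1 - cos θ) / 2) ^ n := by
      ext θ
      simp only [hp, tq_eval]
    rw [this]
    fun_prop
  have hdc : Continuous (deriv p) := hcd.continuous_deriv le_rfl
  have hnum : 1 ≤ ∫ x in (-π)..π, |deriv p x| := by
    have h1 : ∫ x in (0 : ℝ)..π, deriv p x = p π - p 0 :=
      intervalIntegral.integral_deriv_eq_sub (fun x _ => hcd.differentiable one_ne_zero x)
        (hdc.intervalIntegrable _ _)
    rw [hpπ, hpz, sub_zero] at h1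
    have h2 := intervalIntegral.abs_integral_le_integral_abs (f := deriv p) (μ := volume)
      pi_pos.le
    have h3 := intervalIntegral.integral_mono_interval (f := fun x => |deriv p x|) (μ := volume)
      (show -π ≤ 0 by linarith [pi_pos]) pi_pos.le le_rfl
      (Filter.Eventually.of_forall fun x => abs_nonneg _) (hdc.abs.intervalIntegrable _ _)
    rw [h1, abs_one] at h2
    exact h2.trans h3
  have hA : 0 < muF F hF 1 := by linarith [h.total_ge hF, h.pos]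
  have hr : 0 < ρ ^ n := pow_pos (by linarith [h.half]) n
  have hden : 0 < ∫ x in (-π)..π, p x * F (cos x) :=
    integral_pos_of_ae hW.2.2.2.1 hW.1 hae hcd.continuous
      (fun θ => by simp only [hp, cos_add_two_pi]) hp0 hne
  have hden2 : ∫ x in (-π)..π, p x * F (cos x) ≤ 2 * (ρ ^ n * muF F hF 1) := h.test hF
  have hsup : 1 / (2 * (ρ ^ n * muF F hF 1)) ≤ sSup (ratios (fun θ => F (cos θ)) n) := by
    refine le_trans ?_ (le_csSup (bdd hW hae n) ⟨p, htrig, hp0, hne, rfl⟩)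
    exact div_le_div₀ (by linarith) hnum hden hden2
  have hk : (∫ θ in (-π)..π, F (cos θ)) / 2 * sSup (ratios (fun θ => F (cos θ)) n) <
      kane (fun θ => F (cos θ)) n := by
    unfold kane
    push_cast
    exact Nat.lt_floor_add_one _
  rw [← muF_one F hF] at hk
  have h4 := mul_le_mul_of_nonneg_left hsup (show 0 ≤ muF F hF 1 / 2 by positivity)
  have h5 : muF F hF 1 / 2 * (1 / (2 * (ρ ^ n * muF F hF 1))) = 1 / (4 * ρ ^ n) := by
    field_simp
    ring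
  have h6 : 1 / (4 * ρ ^ n) < kane (fun θ => F (cos θ)) n := by linarith
  rw [div_lt_iff₀ (by positivity)] at h6
  linarith

theorem result : ∃ W : ℝ → ℝ, IsWeight W ∧ (∀ m : ℕ, ContDiff ℝ m W) ∧ (∀ θ, W (-θ) = W θ) ∧
    AntitoneOn W (Set.Icc 0 π) ∧ (∀ θ ∈ Set.Ioo (-π) π, 0 < W θ) ∧ (∀ᵐ θ, W θ ≠ 0) ∧
    (∀ n, BddAbove (ratios W n)) ∧
    ∀ (t : ℕ) (c : ℝ), 0 < c → ∀ n₀ : ℕ, ∃ n, n₀ ≤ n ∧ (∃ N₀, ∀ N, N₀ ≤ N → HasQuad W n N) ∧
      (Nbar W n : ℝ) ^ t < c * kane W n := by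
  obtain ⟨F, hsm, hmono, hpos, hlev⟩ := exists_profile
  have hF : Continuous F := (hsm 0).continuous
  have hpos' : ∀ θ, cos θ ≠ -1 → 0 < F (cos θ) := fun θ h =>
    hpos _ (lt_of_le_of_ne (neg_one_le_cos θ) h.symm)
  have hae : ∀ᵐ θ, F (cos θ) ≠ 0 := by
    have hc : (Set.range fun t : ℤ => π + t * (2 * π)).Countable := Set.countable_range _
    filter_upwards [hc.ae_notMem volume] with θ hθ
    refine (hpos' θ fun h' => hθ ?_).ne'
    obtain ⟨t, ht⟩ := cos_eq_neg_one_iff.1 h'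
    exact ⟨t, ht⟩
  have hW : IsWeight fun θ => F (cos θ) := by
    obtain ⟨n, a, τ, B, -, -, h, -⟩ := hlev 0
    refine ⟨fun θ => h.nonneg _, fun θ => by simp only [cos_add_two_pi], by fun_prop,
      Continuous.intervalIntegrable (by fun_prop) _ _, ?_⟩
    rw [← muF_one F hF]
    linarith [h.total_ge hF, h.pos]
  refine ⟨fun θ => F (cos θ), hW, fun m => (hsm m).comp contDiff_cos, fun θ => by simp only [cos_neg],
    fun x hx y hy hxy => hmono (cos_le_cos_of_nonneg_of_le_pi hx.1 hy.2 hxy), fun θ hθ => ?_, hae,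
    bdd hW hae, fun t c hc n₀ => ?_⟩
  · refine hpos _ ?_
    rw [← cos_abs, ← cos_pi]
    exact cos_lt_cos_of_nonneg_of_le_pi (abs_nonneg θ) le_rfl (abs_lt.2 hθ)
  obtain ⟨k₀, hk₀⟩ := exists_nat_one_div_lt hc
  obtain ⟨n, a, τ, B, h1, ha1, h, h5⟩ := hlev (max (max n₀ k₀) t)
  set k := max (max n₀ k₀) t with hk
  have hn1 : (1 : ℝ) ≤ n := by exact_mod_cast h.one_le
  have ha := h.pos
  have hn6 : (1 : ℝ) ≤ (n : ℝ) ^ 6 := one_le_pow₀ hn1
  have hA : 0 < muF F hF 1 := by linarith [h.total_ge hF]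
  have hQ : ∀ N, ⌈100000 * (n : ℝ) ^ 6 / a⌉₊ ≤ N → HasQuad (fun θ => F (cos θ)) n N := by
    intro N hN
    have hN' : 100000 * (n : ℝ) ^ 6 ≤ N * a := by
      rw [Nat.ceil_le, div_le_iff₀ ha] at hN
      exact hN
    obtain ⟨Θ, t1, t2, t3⟩ := h.quad hF N hN'
    refine hasQuad_of hF hA (Nat.pos_of_ne_zero ?_) Θ t1 t2 t3
    rintro rfl
    simp only [Nat.cast_zero, zero_mul] at hN'
    linarith
  refine ⟨n, by omega, ⟨_, hQ⟩, ?_⟩
  have e1 : (Nbar (fun θ => F (cos θ)) n : ℝ) ≤ ⌈100000 * (n : ℝ) ^ 6 / a⌉₊ := by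
    have : Nbar (fun θ => F (cos θ)) n ≤ ⌈100000 * (n : ℝ) ^ 6 / a⌉₊ :=
      Nat.sInf_le (s := {N₀ | ∀ N, N₀ ≤ N → HasQuad (fun θ => F (cos θ)) n N}) hQ
    exact_mod_cast this
  have e2 : (⌈100000 * (n : ℝ) ^ 6 / a⌉₊ : ℝ) < 100000 * (n : ℝ) ^ 6 / a + 1 :=
    Nat.ceil_lt_add_one (by positivity)
  have e0 : 1 ≤ (n : ℝ) ^ 6 / a := by
    rw [le_div_iff₀ ha]
    linarith
  have e3 : (Nbar (fun θ => F (cos θ)) n : ℝ) ≤ 100001 * (n : ℝ) ^ 6 / a := by
    rw [mul_div_assoc] at e1 e2 ⊢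
    linarith
  have e3' : (1 : ℝ) ≤ 100001 * (n : ℝ) ^ 6 / a := by
    rw [mul_div_assoc]
    linarith
  have e4 := kane_lower h hF hW hae
  have hr := pow_pos (rr_pos k) n
  have e5 : (Nbar (fun θ => F (cos θ)) n : ℝ) ^ t ≤ (100001 * (n : ℝ) ^ 6 / a) ^ (k + 1) :=
    (pow_le_pow_left₀ (Nat.cast_nonneg _) e3 t).trans (pow_le_pow_right₀ e3' (by omega))
  have hk0 : (0 : ℝ) ≤ k := Nat.cast_nonneg k
  have hK : (0 : ℝ) ≤ kane (fun θ => F (cos θ)) n := Nat.cast_nonneg _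
  have e6 : (Nbar (fun θ => F (cos θ)) n : ℝ) ^ t * (k + 1) < kane (fun θ => F (cos θ)) n := by
    refine lt_of_mul_lt_mul_right ?_ (show (0 : ℝ) ≤ 4 * rr k ^ n by positivity)
    have := mul_le_mul_of_nonneg_right e5 (show (0 : ℝ) ≤ (k + 1) * (4 * rr k ^ n) by positivity)
    linarith
  have e7 : 1 / ((k : ℝ) + 1) < c := by
    refine lt_of_le_of_lt ?_ hk₀
    have : (k₀ : ℝ) ≤ k := by exact_mod_cast (le_max_right n₀ k₀).trans (le_max_left _ t)
    gcongr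
  rw [div_lt_iff₀ (by positivity)] at e7
  refine lt_of_mul_lt_mul_right ?_ (show (0 : ℝ) ≤ k + 1 by positivity)
  nlinarith

end Pool.Agent.Results.MP_8220a0_an.SmoothNotSharp
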